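import Pool.Agent.Helper23.WT.Nonsurj

set_option autoImplicit false

namespace Pool.Agent.Results.MP_bed2f3_lc.WeakTreesNotOnto

open Pool.Agent.Helper23.WT

/-- There is a model of ZF in which the homomorphism from the initial algebra `W` (countably
branching trees, with a leaf) to the initial algebra `T` (countably branching weakly unordered
trees, with a leaf) is not surjective. -/
theorem result : ∃ (M : Type) (E : M → M → Prop), ZF E ∧ ∃ o, IsOmega E o ∧
    ∃ W ν l T τ r h, IsInitialAlg E o W ν l ∧ IsInitialWU E o T τ r ∧
      IsHom E o W ν l T τ r h ∧ ¬ ∀ t, E t T → ∃ w, E w W ∧ App E h w t :=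
  main

end Pool.Agent.Results.MP_bed2f3_lc.WeakTreesNotOnto
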